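import Pool.Agent.H55.UNI.FAMUa

/-! # FAMU: a finite family of psd blocks (helper55) -/

set_option autoImplicit false

namespace Pool.Agent.H55.UNI

open Matrix Finset H43.PS Pool.Agent.H70.UN

/-- the loss of one block and one shift -/
noncomputable def lossU (Q p K LAM R r κ y : ℝ) (N d q : ℕ) : ℝ :=
  (2 / K) ^ N * y + 2 * Real.sqrt (y * (E1 Q p K LAM R N d q * (r * Real.sqrt (κ * y)))) +
    E1 Q p K LAM R N d q * (r * Real.sqrt (κ * y))

theorem E1_nonneg {Q p K LAM R : ℝ} {N d q : ℕ} (hQ : 0 ≤ Q) (hp : 1 < p) (hK : 0 ≤ K)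
    (hLAM : 0 ≤ LAM) (hR : 0 ≤ R) : 0 ≤ E1 Q p K LAM R N d q := by
  unfold E1 KU
  have : 0 < p - 1 := by linarith
  positivity

/-- one block, summed over the shifts and the choices -/
theorem fam_one (CORE1 : T_CORE1) {Θ : Type} [Fintype Θ] [DecidableEq Θ] [AddCommGroup Θ] {p : ℝ}
    (hp : 1 < p) (hp2 : p < 3 / 2) {N q d : ℕ} (hq : 1 < q) (hd : d ≤ N) {r : ℕ}
    (P : (Fin N → Fin q → Θ) → Matrix (Fin r) (Fin r) ℝ)
    (S : (Fin N → Θ) × (Fin N → Fin q) → Matrix (Fin r) (Fin r) ℝ)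
    (A' : Finset (Fin N → Fin q → Θ)) (D : (Fin N → Θ) → ℝ) (M K LAM R κ : ℝ) (hM : 0 ≤ M)
    (hK : 1 ≤ K) (hLAM : 1 ≤ LAM) (hrR : (r : ℝ) ≤ R) (hP : ∀ a, (P a).PosSemidef)
    (hS : ∀ x, (S x).PosSemidef) (hDM : ∀ z, |D z| ≤ M) (hD : PosFam d D)
    (hav : av (fun a => (P a).trace) ≤ r) (htr : ∀ a ∈ A', (P a).trace ≤ r * LAM)
    (hPS : ∀ x, av (fun a => (P a * S x).trace) ≤ (S x).trace) (hκ : ∀ x, (S x).trace ≤ κ) :
    - (M * ((Fintype.card (Fin N → Fin q → Θ) : ℝ) *
        Fintype.card ((Fin N → Θ) × (Fin N → Fin q)) *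
        av (fun ζ : Fin N → Θ => lossU (Fintype.card Θ) p K LAM R r κ
          (av (fun b => (S (ζ, b)).trace)) N d q))) ≤
      ∑ a ∈ A', ∑ x : (Fin N → Θ) × (Fin N → Fin q),
        D (fun k => x.1 k + a k (x.2 k)) * (P a * S x).trace := by
  classical
  have hΘ : 0 < Fintype.card Θ := Fintype.card_pos
  have hqn : Nonempty (Fin q) := ⟨⟨0, by omega⟩⟩
  have hP' : ∀ a, (if a ∈ A' then P a else 0).PosSemidef := by
    intro a
    split_ifs
    · exact hP a
    · exact PosSemidef.zero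
  have hle : ∀ a, (if a ∈ A' then P a else 0).trace ≤ (P a).trace := by
    intro a
    split_ifs
    · exact le_rfl
    · rw [trace_zero]
      exact (hP a).trace_nonneg
  have hle2 : ∀ a x, ((if a ∈ A' then P a else 0) * S x).trace ≤ (P a * S x).trace := by
    intro a x
    split_ifs
    · exact le_rfl
    · rw [Matrix.zero_mul, trace_zero]
      exact Pool.Agent.H49.SDP.trace_mul_nonneg (hP a) (hS x)
  have hone : ∀ ζ : Fin N → Θ,
      - (M * lossU (Fintype.card Θ) p K LAM R r κ (av (fun b => (S (ζ, b)).trace)) N d q) ≤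
        av (fun ab : (Fin N → Fin q → Θ) × (Fin N → Fin q) =>
          D (fun k => ζ k + ab.1 k (ab.2 k)) *
            ((if ab.1 ∈ A' then P ab.1 else 0) * S (ζ, ab.2)).trace) := by
    intro ζ
    have h := CORE1 Θ p hp hp2 hΘ N q d hq hd (Fin r) (fun a => if a ∈ A' then P a else 0)
      (fun b => S (ζ, b)) (fun z => D (fun k => ζ k + z k)) M K LAM R κ hM hK hLAM
      (by rw [Fintype.card_fin]; exact hrR) hP' (fun b => hS _) (fun z => hDM _)
      (posFam_shift hD ζ)
      (by
        rw [Fintype.card_fin]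
        exact (av_le_av _ _ hle).trans hav)
      (by
        intro a
        rw [Fintype.card_fin]
        by_cases ha : a ∈ A'
        · rw [if_pos ha]
          exact htr a ha
        · rw [if_neg ha, trace_zero]
          have : (0 : ℝ) ≤ r := Nat.cast_nonneg r
          positivity)
      (fun b => (av_le_av _ _ fun a => hle2 a (ζ, b)).trans (hPS _)) (fun b => hκ _)
    rw [Fintype.card_fin] at h
    exact h
  -- the sum over the shifts
  have hsum : ∑ ζ : Fin N → Θ, ((Fintype.card (Fin N → Fin q → Θ) : ℝ) *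
      Fintype.card (Fin N → Fin q)) * av (fun ab : (Fin N → Fin q → Θ) × (Fin N → Fin q) =>
          D (fun k => ζ k + ab.1 k (ab.2 k)) *
            ((if ab.1 ∈ A' then P ab.1 else 0) * S (ζ, ab.2)).trace) =
      ∑ a ∈ A', ∑ x : (Fin N → Θ) × (Fin N → Fin q),
        D (fun k => x.1 k + a k (x.2 k)) * (P a * S x).trace := by
    have h1 : ∀ ζ : Fin N → Θ, ((Fintype.card (Fin N → Fin q → Θ) : ℝ) *
      Fintype.card (Fin N → Fin q)) * av (fun ab : (Fin N → Fin q → Θ) × (Fin N → Fin q) =>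
          D (fun k => ζ k + ab.1 k (ab.2 k)) *
            ((if ab.1 ∈ A' then P ab.1 else 0) * S (ζ, ab.2)).trace) =
        ∑ a ∈ A', ∑ b : Fin N → Fin q, D (fun k => ζ k + a k (b k)) * (P a * S (ζ, b)).trace := by
      intro ζ
      have h2 := card_mul_av (X := (Fin N → Fin q → Θ) × (Fin N → Fin q)) Fintype.card_pos
        (fun ab : (Fin N → Fin q → Θ) × (Fin N → Fin q) => D (fun k => ζ k + ab.1 k (ab.2 k)) *
            ((if ab.1 ∈ A' then P ab.1 else 0) * S (ζ, ab.2)).trace)
      rw [Fintype.card_prod, Nat.cast_mul] at h2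
      rw [h2, Fintype.sum_prod_type, ← Finset.sum_filter_add_sum_filter_not univ (fun a => a ∈ A')]
      have h3 : ∑ a ∈ univ.filter (fun a => ¬ a ∈ A'), ∑ b : Fin N → Fin q,
          D (fun k => ζ k + a k (b k)) *
            ((if a ∈ A' then P a else 0) * S (ζ, b)).trace = 0 := by
        refine sum_eq_zero fun a ha => sum_eq_zero fun b _ => ?_
        rw [if_neg (mem_filter.1 ha).2, Matrix.zero_mul, trace_zero, mul_zero]
      rw [h3, add_zero]
      have h4 : univ.filter (fun a => a ∈ A') = A' := by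
        ext a
        simp
      rw [h4]
      refine sum_congr rfl fun a ha => sum_congr rfl fun b _ => ?_
      rw [if_pos ha]
    rw [sum_congr rfl fun ζ _ => h1 ζ, sum_comm]
    refine sum_congr rfl fun a _ => ?_
    rw [Fintype.sum_prod_type]
  rw [← hsum]
  have h5 : ∑ ζ : Fin N → Θ, ((Fintype.card (Fin N → Fin q → Θ) : ℝ) *
      Fintype.card (Fin N → Fin q)) *
        (- (M * lossU (Fintype.card Θ) p K LAM R r κ (av (fun b => (S (ζ, b)).trace)) N d q)) ≤
      ∑ ζ : Fin N → Θ, ((Fintype.card (Fin N → Fin q → Θ) : ℝ) *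
      Fintype.card (Fin N → Fin q)) * av (fun ab : (Fin N → Fin q → Θ) × (Fin N → Fin q) =>
          D (fun k => ζ k + ab.1 k (ab.2 k)) *
            ((if ab.1 ∈ A' then P ab.1 else 0) * S (ζ, ab.2)).trace) :=
    sum_le_sum fun ζ _ => mul_le_mul_of_nonneg_left (hone ζ) (by positivity)
  refine le_trans (le_of_eq ?_) h5
  have h6 := card_mul_av (X := Fin N → Θ) Fintype.card_pos
    (fun ζ : Fin N → Θ => lossU (Fintype.card Θ) p K LAM R r κ
          (av (fun b => (S (ζ, b)).trace)) N d q)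
  rw [Fintype.card_prod, Nat.cast_mul]
  rw [← mul_sum, sum_neg_distrib, ← mul_sum, ← h6]
  ring

end Pool.Agent.H55.UNI

namespace Pool.Agent.H70.UN

open Matrix Finset H43.PS Pool.Agent.H55.UNI

theorem pf_FAMU (CORE1 : T_CORE1) (WHI : T_WHI) (SUMF : T_SUMF) : T_FAMU := by
  classical
  intro Θ _ _ _ p hp hp2 N q d hq hd I _ _ r P S A use m R K LAM hP hS hm hR hK hLAM hPA hPuse
    huse hmm
  have hqn : Nonempty (Fin q) := ⟨⟨0, by omega⟩⟩
  have hΘ : 0 < Fintype.card Θ := Fintype.card_pos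
  rcases A.eq_empty_or_nonempty with hA0 | hA0
  · subst hA0
    refine ⟨∅, subset_rfl, by simp; positivity, ?_⟩
    intro M D I' hM hDM hD
    simp
  have hYc : 0 < Fintype.card (Fin N → Fin q → Θ) := Fintype.card_pos
  have hXc : 0 < Fintype.card ((Fin N → Θ) × (Fin N → Fin q)) := Fintype.card_pos
  obtain ⟨cY, hcY⟩ : ∃ cY : ℝ, cY = Fintype.card (Fin N → Fin q → Θ) := ⟨_, rfl⟩
  have hcY0 : 0 < cY := by rw [hcY]; exact_mod_cast hYc
  obtain ⟨al, hal⟩ : ∃ al : ℝ, al = A.card / cY := ⟨_, rfl⟩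
  have hAc : (0 : ℝ) < A.card := by exact_mod_cast hA0.card_pos
  have hal0 : 0 < al := by rw [hal]; positivity
  obtain ⟨s2, hs2⟩ : ∃ s2 : ℝ, s2 = ∑ i, (r i : ℝ) ^ 2 := ⟨_, rfl⟩
  have hs20 : 0 ≤ s2 := by rw [hs2]; exact sum_nonneg fun i _ => by positivity
  obtain ⟨η, hη⟩ : ∃ η : ℝ, η = al * m / (Fintype.card I + s2 + 1) := ⟨_, rfl⟩
  have hden : 0 < (Fintype.card I : ℝ) + s2 + 1 := by positivity
  have hη0 : 0 < η := by rw [hη]; positivity
  have hη1 : (Fintype.card I : ℝ) * η ≤ al * m := by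
    rw [hη, mul_div_assoc', div_le_iff₀ hden]
    have : 0 ≤ al * m := by positivity
    nlinarith
  have hη2 : η * s2 ≤ al * m := by
    rw [hη, div_mul_eq_mul_div, div_le_iff₀ hden]
    have h1 : 0 ≤ al * m := by positivity
    have h2 : (0 : ℝ) ≤ Fintype.card I := by positivity
    nlinarith
  have hw := fun i => WHI (Fin (r i)) (Fin N → Fin q → Θ) ((Fin N → Θ) × (Fin N → Fin q)) (P i)
    (S i) η hη0 (hP i) (hS i)
  choose P' S' hP' hS' htr hav hlow hupp using hw
  have hcI : ∀ i, (Fintype.card (Fin (r i)) : ℝ) = r i := fun i => by rw [Fintype.card_fin]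
  -- the traces of products
  have hnn : ∀ i a x, 0 ≤ (P i a * S i x).trace := fun i a x =>
    Pool.Agent.H49.SDP.trace_mul_nonneg (hP i a) (hS i x)
  have hzero : ∀ i a x, ¬ (a ∈ A ∧ i ∈ use a) → (P i a * S i x).trace = 0 := by
    intro i a x h
    have h0 : P i a = 0 := by
      by_cases ha : a ∈ A
      · exact hPuse a i (fun h' => h ⟨ha, h'⟩)
      · exact hPA i a ha
    rw [h0, Matrix.zero_mul, trace_zero]
  have hle_m : ∀ i a x, (P i a * S i x).trace ≤ m := by
    intro i a x
    by_cases ha : a ∈ A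
    · exact (single_le_sum (f := fun i => (P i a * S i x).trace) (fun i _ => hnn i a x)
        (mem_univ i)).trans (hmm a ha x)
    · rw [hzero i a x (fun h => ha h.1)]
      exact hm.le
  refine ⟨A.filter (fun a => ∀ i, (P' i a).trace ≤ r i * LAM), filter_subset _ _, ?_, ?_⟩
  · refine fam_markov A (fun i a => (P' i a).trace) r LAM hLAM
      (fun i a => (hP' i a).trace_nonneg) ?_ ?_ hYc
    · intro i h0 a
      have : IsEmpty (Fin (r i)) := by rw [h0]; infer_instance
      simp [Matrix.trace]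
    · intro i
      rw [← hcI i]
      exact hav i
  intro M D I' hM hDM hD
  -- the blocks which are used
  obtain ⟨I'', hI''⟩ : ∃ I'' : Finset I, I'' = I'.filter (fun i => ∃ a ∈ A, i ∈ use a) := ⟨_, rfl⟩
  have hred : ∀ a x, ∑ i ∈ I', (P i a * S i x).trace = ∑ i ∈ I'', (P' i a * S' i x).trace := by
    intro a x
    rw [hI'', sum_filter]
    refine sum_congr rfl fun i _ => ?_
    split_ifs with h
    · exact (htr i a x).symm
    · exact hzero i a x (fun h' => h ⟨a, h'.1, h'.2⟩)
  have hrR : ∀ i ∈ I'', (r i : ℝ) ≤ R := by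
    intro i hi
    rw [hI'', mem_filter] at hi
    obtain ⟨a, ha, hia⟩ := hi.2
    have h1 : (r i : ℝ) ^ 2 ≤ R := (single_le_sum (f := fun i => (r i : ℝ) ^ 2)
      (fun i _ => by positivity) hia).trans (huse a ha)
    rcases Nat.eq_zero_or_pos (r i) with h0 | h0
    · rw [h0]
      simp
      linarith
    · have : (1 : ℝ) ≤ r i := by exact_mod_cast h0
      nlinarith
  obtain ⟨κ, hκ⟩ : ∃ κ : I → ℝ, κ = fun i =>
    ((A.filter (fun a => i ∈ use a)).card : ℝ) / cY * m + η := ⟨_, rfl⟩
  have hκ0 : ∀ i, 0 ≤ κ i := by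
    intro i
    rw [hκ]
    positivity
  have hκS : ∀ i x, (S' i x).trace ≤ κ i := by
    intro i x
    refine (hupp i x).trans ?_
    rw [hκ]
    refine add_le_add ?_ le_rfl
    unfold av
    rw [← hcY, div_mul_eq_mul_div, inv_mul_le_iff₀ hcY0]
    have h1 : ∑ a, (P i a * S i x).trace ≤ ∑ a ∈ A.filter (fun a => i ∈ use a), m := by
      rw [← sum_subset (subset_univ (A.filter (fun a => i ∈ use a)))]
      · exact sum_le_sum fun a _ => hle_m i a x
      · intro a _ ha
        exact hzero i a x (fun h => ha (mem_filter.2 h))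
    rw [sum_const, nsmul_eq_mul] at h1
    refine h1.trans (le_of_eq ?_)
    field_simp
  -- the sum over the blocks
  have hS1 : ∑ i ∈ I'', av (fun ζ : Fin N → Θ => av (fun b => (S' i (ζ, b)).trace)) ≤
      2 * (al * m) := by
    have h1 : ∀ i, av (fun ζ : Fin N → Θ => av (fun b => (S' i (ζ, b)).trace)) ≤
        av (fun x => av (fun a => (P i a * S i x).trace)) + η := by
      intro i
      rw [← av_prod (fun x => (S' i x).trace)]
      refine (av_le_av _ _ (hupp i)).trans ?_
      rw [av_add', av_const' hXc]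
    refine (sum_le_sum fun i _ => h1 i).trans ?_
    rw [sum_add_distrib, sum_const, nsmul_eq_mul, av_sum_comm]
    have h2 : (I''.card : ℝ) * η ≤ al * m := by
      refine le_trans ?_ hη1
      apply mul_le_mul_of_nonneg_right _ hη0.le
      exact_mod_cast card_le_univ _
    have h3 : av (fun x => ∑ i ∈ I'', av (fun a => (P i a * S i x).trace)) ≤ al * m := by
      have h4 : ∀ x, ∑ i ∈ I'', av (fun a => (P i a * S i x).trace) ≤ al * m := by
        intro x
        rw [av_sum_comm]
        unfold av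
        rw [← hcY, hal, div_mul_eq_mul_div, inv_mul_le_iff₀ hcY0]
        have h5 : ∑ a, ∑ i ∈ I'', (P i a * S i x).trace ≤ ∑ a ∈ A, m := by
          rw [← sum_subset (subset_univ A)]
          · refine sum_le_sum fun a ha => ?_
            exact (sum_le_sum_of_subset_of_nonneg (subset_univ I'')
              (fun i _ _ => hnn i a x)).trans (hmm a ha x)
          · intro a _ ha
            exact sum_eq_zero fun i _ => hzero i a x (fun h => ha h.1)
        rw [sum_const, nsmul_eq_mul] at h5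
        refine h5.trans (le_of_eq ?_)
        field_simp
      refine (av_le_av _ _ h4).trans ?_
      rw [av_const' hXc]
    linarith
  have hS2 : ∑ i ∈ I'', (r i : ℝ) ^ 2 * κ i ≤ 2 * (al * m) * R := by
    have h1 : ∑ i ∈ I'', (r i : ℝ) ^ 2 * κ i ≤ ∑ i, (r i : ℝ) ^ 2 * κ i :=
      sum_le_sum_of_subset_of_nonneg (subset_univ _) fun i _ _ =>
        mul_nonneg (by positivity) (hκ0 i)
    have h2 : ∑ i, (r i : ℝ) ^ 2 * κ i =
        m / cY * ∑ i, (r i : ℝ) ^ 2 * ((A.filter (fun a => i ∈ use a)).card : ℝ) + η * s2 := by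
      rw [hs2, mul_sum, mul_sum, ← sum_add_distrib]
      refine sum_congr rfl fun i _ => ?_
      rw [hκ]
      ring
    have h3 : ∑ i, (r i : ℝ) ^ 2 * ((A.filter (fun a => i ∈ use a)).card : ℝ) ≤ A.card * R := by
      have h4 : ∀ i, (r i : ℝ) ^ 2 * ((A.filter (fun a => i ∈ use a)).card : ℝ) =
          ∑ a ∈ A, if i ∈ use a then (r i : ℝ) ^ 2 else 0 := by
        intro i
        rw [← sum_filter, sum_const, nsmul_eq_mul, mul_comm]
      rw [sum_congr rfl fun i _ => h4 i, sum_comm]
      calc ∑ a ∈ A, ∑ i, (if i ∈ use a then (r i : ℝ) ^ 2 else 0) ≤ ∑ a ∈ A, R := by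
            refine sum_le_sum fun a ha => ?_
            rw [sum_ite_mem, univ_inter]
            exact huse a ha
        _ = A.card * R := by rw [sum_const, nsmul_eq_mul]
    have h5 : m / cY * ∑ i, (r i : ℝ) ^ 2 * ((A.filter (fun a => i ∈ use a)).card : ℝ) ≤
        al * m * R := by
      refine (mul_le_mul_of_nonneg_left h3 (by positivity)).trans (le_of_eq ?_)
      rw [hal]
      field_simp
    have h6 : η * s2 ≤ al * m * R := by
      refine hη2.trans ?_
      have : 0 ≤ al * m := by positivity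
      nlinarith
    rw [h2] at h1
    linarith
  have hE1 : 0 ≤ E1 (Fintype.card Θ) p K LAM R N d q :=
    E1_nonneg (by positivity) hp (by linarith) (by linarith) (by linarith)
  have hSUM := SUMF I (Fin N → Θ) I'' (fun i ζ => av (fun b => (S' i (ζ, b)).trace))
    (fun i => (r i : ℝ)) κ (E1 (Fintype.card Θ) p K LAM R N d q) ((2 / K) ^ N) (2 * (al * m)) R
    (fun i ζ => av_nonneg' _ fun b => (hS' i _).trace_nonneg) (fun i => by positivity) hκ0 hE1
    (by positivity) (by positivity) (by linarith) hS1 hS2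
  -- the inequality for every block
  have hblk : ∀ i ∈ I'', - (M * ((Fintype.card (Fin N → Fin q → Θ) : ℝ) *
        Fintype.card ((Fin N → Θ) × (Fin N → Fin q)) *
        av (fun ζ : Fin N → Θ => lossU (Fintype.card Θ) p K LAM R (r i) (κ i)
          (av (fun b => (S' i (ζ, b)).trace)) N d q))) ≤
      ∑ a ∈ A.filter (fun a => ∀ i, (P' i a).trace ≤ r i * LAM),
        ∑ x : (Fin N → Θ) × (Fin N → Fin q),
          D (fun k => x.1 k + a k (x.2 k)) * (P' i a * S' i x).trace := by
    intro i hi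
    refine fam_one CORE1 hp hp2 hq hd (P' i) (S' i) _ D M K LAM R (κ i) hM hK hLAM (hrR i hi)
      (hP' i) (hS' i) hDM hD ?_ ?_ ?_ (hκS i)
    · rw [← hcI i]
      exact hav i
    · intro a ha
      exact (mem_filter.1 ha).2 i
    · intro x
      refine le_trans (le_of_eq ?_) (hlow i x)
      congr 1
      funext a
      exact htr i a x
  have hfin : ∑ i ∈ I'', (- (M * ((Fintype.card (Fin N → Fin q → Θ) : ℝ) *
        Fintype.card ((Fin N → Θ) × (Fin N → Fin q)) *
        av (fun ζ : Fin N → Θ => lossU (Fintype.card Θ) p K LAM R (r i) (κ i)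
          (av (fun b => (S' i (ζ, b)).trace)) N d q)))) ≤
      ∑ a ∈ A.filter (fun a => ∀ i, (P' i a).trace ≤ r i * LAM),
        ∑ x : (Fin N → Θ) × (Fin N → Fin q),
          D (fun k => x.1 k + a k (x.2 k)) * ∑ i ∈ I', (P i a * S i x).trace := by
    refine (sum_le_sum hblk).trans (le_of_eq ?_)
    rw [sum_comm]
    refine sum_congr rfl fun a _ => ?_
    rw [sum_comm]
    refine sum_congr rfl fun x _ => ?_
    rw [hred, mul_sum]
  refine le_trans ?_ hfin
  rw [sum_neg_distrib, ← mul_sum, ← mul_sum]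
  apply neg_le_neg
  have h1 : M * ((Fintype.card (Fin N → Fin q → Θ) : ℝ) *
        Fintype.card ((Fin N → Θ) × (Fin N → Fin q)) *
        ∑ i ∈ I'', av (fun ζ : Fin N → Θ => lossU (Fintype.card Θ) p K LAM R (r i) (κ i)
          (av (fun b => (S' i (ζ, b)).trace)) N d q)) ≤
      M * ((Fintype.card (Fin N → Fin q → Θ) : ℝ) *
        Fintype.card ((Fin N → Θ) × (Fin N → Fin q)) *
        (2 * (al * m) * ERR (Fintype.card Θ) p K LAM R N d q)) := by
    apply mul_le_mul_of_nonneg_left _ hM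
    apply mul_le_mul_of_nonneg_left _ (by positivity)
    exact hSUM
  refine h1.trans (le_of_eq ?_)
  rw [hal, ← hcY]
  field_simp

end Pool.Agent.H70.UN
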