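import Pool.Agent.H70.UN.Targets2
import Pool.Agent.H49.SDP.Mat

/-! # FAMU, part one: lemmas (helper55) -/

set_option autoImplicit false

namespace Pool.Agent.H55.UNI

open Matrix Finset H43.PS Pool.Agent.H70.UN

theorem card_mul_av {X : Type} [Fintype X] (hX : 0 < Fintype.card X) (f : X → ℝ) :
    (Fintype.card X : ℝ) * av f = ∑ x, f x := by
  unfold av
  have : (Fintype.card X : ℝ) ≠ 0 := by
    have : (0 : ℝ) < Fintype.card X := by exact_mod_cast hX
    exact this.ne'
  rw [← mul_assoc, mul_inv_cancel₀ this, one_mul]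

theorem av_le_av {X : Type} [Fintype X] (f g : X → ℝ) (h : ∀ x, f x ≤ g x) : av f ≤ av g := by
  unfold av
  exact mul_le_mul_of_nonneg_left (sum_le_sum fun x _ => h x) (by positivity)

theorem av_nonneg' {X : Type} [Fintype X] (f : X → ℝ) (h : ∀ x, 0 ≤ f x) : 0 ≤ av f := by
  unfold av
  exact mul_nonneg (by positivity) (sum_nonneg fun x _ => h x)

theorem av_const' {X : Type} [Fintype X] (hX : 0 < Fintype.card X) (c : ℝ) :
    av (fun _ : X => c) = c := by
  unfold av
  have : (Fintype.card X : ℝ) ≠ 0 := by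
    have : (0 : ℝ) < Fintype.card X := by exact_mod_cast hX
    exact this.ne'
  rw [sum_const, card_univ, nsmul_eq_mul, ← mul_assoc, inv_mul_cancel₀ this, one_mul]

theorem av_add' {X : Type} [Fintype X] (f g : X → ℝ) :
    av (fun x => f x + g x) = av f + av g := by
  unfold av
  rw [sum_add_distrib, mul_add]

theorem av_prod {X Y : Type} [Fintype X] [Fintype Y] (f : X × Y → ℝ) :
    av f = av (fun x => av (fun y => f (x, y))) := by
  unfold av
  rw [Fintype.card_prod, Fintype.sum_prod_type, Nat.cast_mul, mul_inv, mul_assoc, mul_sum]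

theorem av_sum_comm {X I : Type} [Fintype X] (s : Finset I) (f : I → X → ℝ) :
    ∑ i ∈ s, av (f i) = av (fun x => ∑ i ∈ s, f i x) := by
  unfold av
  rw [← mul_sum, sum_comm]

/-- Markov's inequality for all blocks -/
theorem fam_markov {Y I : Type} [Fintype Y] [DecidableEq Y] [Fintype I] [DecidableEq I]
    (A : Finset Y) (t : I → Y → ℝ) (r : I → ℕ) (LAM : ℝ) (hLAM : 1 ≤ LAM)
    (ht0 : ∀ i a, 0 ≤ t i a) (hr0 : ∀ i, r i = 0 → ∀ a, t i a = 0) (hav : ∀ i, av (t i) ≤ r i)
    (hY : 0 < Fintype.card Y) :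
    (((A \ A.filter (fun a => ∀ i, t i a ≤ r i * LAM)).card : ℕ) : ℝ) * LAM ≤
      (Fintype.card I : ℝ) * Fintype.card Y := by
  classical
  have h1 : A \ A.filter (fun a => ∀ i, t i a ≤ r i * LAM) ⊆
      univ.biUnion (fun i => univ.filter (fun a => (r i : ℝ) * LAM < t i a)) := by
    intro a ha
    rw [mem_sdiff, mem_filter] at ha
    have h2 : ¬ ∀ i, t i a ≤ r i * LAM := fun h => ha.2 ⟨ha.1, h⟩
    push Not at h2
    obtain ⟨i, hi⟩ := h2
    exact mem_biUnion.2 ⟨i, mem_univ _, mem_filter.2 ⟨mem_univ _, hi⟩⟩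
  have h2 : ∀ i, (((univ.filter (fun a => (r i : ℝ) * LAM < t i a)).card : ℕ) : ℝ) * LAM ≤
      Fintype.card Y := by
    intro i
    rcases Nat.eq_zero_or_pos (r i) with h0 | h0
    · have h3 : univ.filter (fun a => (r i : ℝ) * LAM < t i a) = ∅ := by
        apply filter_eq_empty_iff.2
        intro a _ h4
        rw [hr0 i h0 a, h0] at h4
        simp at h4
      rw [h3]
      simp
    · have hr : (0 : ℝ) < r i := by exact_mod_cast h0
      have h3 : (((univ.filter (fun a => (r i : ℝ) * LAM < t i a)).card : ℕ) : ℝ) *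
          ((r i : ℝ) * LAM) ≤ ∑ a, t i a := by
        calc (((univ.filter (fun a => (r i : ℝ) * LAM < t i a)).card : ℕ) : ℝ) *
            ((r i : ℝ) * LAM) = ∑ a ∈ univ.filter (fun a => (r i : ℝ) * LAM < t i a),
              ((r i : ℝ) * LAM) := by
              rw [sum_const, nsmul_eq_mul]
          _ ≤ ∑ a ∈ univ.filter (fun a => (r i : ℝ) * LAM < t i a), t i a :=
              sum_le_sum fun a ha => (mem_filter.1 ha).2.le
          _ ≤ ∑ a, t i a :=
              sum_le_sum_of_subset_of_nonneg (filter_subset _ _) fun a _ _ => ht0 i a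
      rw [← card_mul_av hY] at h3
      have h4 : (Fintype.card Y : ℝ) * av (t i) ≤ Fintype.card Y * r i :=
        mul_le_mul_of_nonneg_left (hav i) (by positivity)
      have h5 : ((((univ.filter (fun a => (r i : ℝ) * LAM < t i a)).card : ℕ) : ℝ) * LAM) * r i ≤
          Fintype.card Y * r i := by
        calc ((((univ.filter (fun a => (r i : ℝ) * LAM < t i a)).card : ℕ) : ℝ) * LAM) * r i
            = (((univ.filter (fun a => (r i : ℝ) * LAM < t i a)).card : ℕ) : ℝ) *
              ((r i : ℝ) * LAM) := by ring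
          _ ≤ _ := h3.trans h4
      exact le_of_mul_le_mul_right h5 hr
  have h3 := (card_le_card h1).trans card_biUnion_le
  have h4 : (((A \ A.filter (fun a => ∀ i, t i a ≤ r i * LAM)).card : ℕ) : ℝ) ≤
      ∑ i, (((univ.filter (fun a => (r i : ℝ) * LAM < t i a)).card : ℕ) : ℝ) := by
    exact_mod_cast h3
  calc (((A \ A.filter (fun a => ∀ i, t i a ≤ r i * LAM)).card : ℕ) : ℝ) * LAM ≤
      (∑ i, (((univ.filter (fun a => (r i : ℝ) * LAM < t i a)).card : ℕ) : ℝ)) * LAM :=
        mul_le_mul_of_nonneg_right h4 (by linarith)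
    _ = ∑ i, (((univ.filter (fun a => (r i : ℝ) * LAM < t i a)).card : ℕ) : ℝ) * LAM := by
        rw [sum_mul]
    _ ≤ ∑ _i : I, (Fintype.card Y : ℝ) := sum_le_sum fun i _ => h2 i
    _ = _ := by rw [sum_const, card_univ, nsmul_eq_mul]

theorem posFam_shift {Θ : Type} [Fintype Θ] [AddCommGroup Θ] {N d : ℕ} {D : (Fin N → Θ) → ℝ}
    (h : PosFam d D) (ζ : Fin N → Θ) : PosFam d (fun z => D (fun k => ζ k + z k)) := by
  intro UU hU F hF
  have h1 := h UU hU (fun T z => F T (fun k => z k - ζ k)) (fun T hT z z' hz => by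
    apply hF T hT
    intro i hi
    rw [hz i hi])
  have h2 : ∑ z, D (fun k => ζ k + z k) * (∑ T ∈ UU, F T z) ^ 2 =
      ∑ z, D z * (∑ T ∈ UU, F T (fun k => z k - ζ k)) ^ 2 := by
    rw [← Equiv.sum_comp (Equiv.addLeft ζ)
      (fun z => D z * (∑ T ∈ UU, F T (fun k => z k - ζ k)) ^ 2)]
    refine sum_congr rfl fun z _ => ?_
    have h3 : (Equiv.addLeft ζ) z = fun k => ζ k + z k := rfl
    rw [h3]
    have h4 : (fun k => (fun k => ζ k + z k) k - ζ k) = z := by
      funext k
      simp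
    simp only [add_sub_cancel_left]
  rw [h2]
  exact h1

end Pool.Agent.H55.UNI
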